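import Mathlib

/-!
# MP_5ce401_an: for coefficients of arbitrary sign no constant `M` gives asymptotic stability

For small `κ > 0` put `x(t) = 1 + κ sin t`, `a(t) = - κ cos t / (1 + κ cos t)` and `h(t) = t - τ` with
`τ = 2 π j - π / 2`.  Then `x' = - a x(h)`, and the integral of `a` over `[h(t), t]` lies in
`[κ²/3, 13 κ]` if `j` is of the order of `1 / κ`.
-/

set_option autoImplicit false

namespace Pool.Agent.Results.MP_5ce401_an.NoConstant

open Set Filter Topology Real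

/-- The standing assumptions on the pair `(a, h)`: `a` and `h` are continuous on `[t₀, ∞)`,
`h(t) ≤ t`, `h(t) → ∞`, and `a` and the delay `t - h(t)` are bounded on `[t₀, ∞)`. -/
structure IsAdmissible (t₀ : ℝ) (a h : ℝ → ℝ) : Prop where
  cont_a : ContinuousOn a (Ici t₀)
  cont_h : ContinuousOn h (Ici t₀)
  h_le : ∀ t, t₀ ≤ t → h t ≤ t
  h_tendsto : Tendsto h atTop atTop
  bdd_a : ∃ A : ℝ, ∀ t, t₀ ≤ t → |a t| ≤ A
  bdd_delay : ∃ τ : ℝ, ∀ t, t₀ ≤ t → t - h t ≤ τ

/-- `ψ` is an admissible initial function: continuous and bounded on `(-∞, t₀]`. -/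
def IsInitial (t₀ : ℝ) (ψ : ℝ → ℝ) : Prop :=
  ContinuousOn ψ (Iic t₀) ∧ ∃ C : ℝ, ∀ t, t ≤ t₀ → |ψ t| ≤ C

/-- `x` is the solution of `x'(t) + a(t) x(h(t)) = 0`, `t ≥ t₀`, with initial function `ψ`. -/
def IsSolution (t₀ : ℝ) (a h ψ x : ℝ → ℝ) : Prop :=
  (∀ t, t ≤ t₀ → x t = ψ t) ∧
    ∀ t, t₀ ≤ t → HasDerivWithinAt x (-(a t * x (h t))) (Ici t₀) t

/-- The equation is asymptotically stable: it is stable and every solution tends to `0`. -/
def IsAS (t₀ : ℝ) (a h : ℝ → ℝ) : Prop :=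
  (∀ ε > 0, ∃ δ > 0, ∀ ψ x, IsInitial t₀ ψ → IsSolution t₀ a h ψ x → (∀ t, t ≤ t₀ → |ψ t| ≤ δ) →
      ∀ t, t₀ ≤ t → |x t| < ε) ∧
    ∀ ψ x, IsInitial t₀ ψ → IsSolution t₀ a h ψ x → Tendsto x atTop (𝓝 0)

/-- the coefficient -/
noncomputable def co (κ s : ℝ) : ℝ := -(κ * cos s) / (1 + κ * cos s)

lemma den_bounds (κ : ℝ) (h0 : 0 < κ) (h1 : κ ≤ 1 / 2) (s : ℝ) :
    1 / 2 ≤ 1 + κ * cos s ∧ 1 + κ * cos s ≤ 3 / 2 := by
  have := neg_one_le_cos s
  have := cos_le_one s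
  constructor <;> nlinarith

lemma co_cont (κ : ℝ) (h0 : 0 < κ) (h1 : κ ≤ 1 / 2) : Continuous (co κ) := by
  unfold co
  refine Continuous.div (by fun_prop) (by fun_prop) fun s => ?_
  have := (den_bounds κ h0 h1 s).1
  linarith

lemma co_lower (κ : ℝ) (h0 : 0 < κ) (h1 : κ ≤ 1 / 2) (s : ℝ) :
    -(κ * cos s) + 2 / 3 * κ ^ 2 * cos s ^ 2 ≤ co κ s := by
  obtain ⟨h2, h3⟩ := den_bounds κ h0 h1 s
  unfold co
  rw [le_div_iff₀ (by linarith)]
  nlinarith [mul_nonneg (sq_nonneg (κ * cos s)) (by linarith : 0 ≤ 3 / 2 - (1 + κ * cos s))]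

lemma co_upper (κ : ℝ) (h0 : 0 < κ) (h1 : κ ≤ 1 / 2) (s : ℝ) :
    co κ s ≤ -(κ * cos s) + 2 * κ ^ 2 * cos s ^ 2 := by
  obtain ⟨h2, h3⟩ := den_bounds κ h0 h1 s
  unfold co
  rw [div_le_iff₀ (by linarith)]
  nlinarith [mul_nonneg (sq_nonneg (κ * cos s)) (by linarith : 0 ≤ (1 + κ * cos s) - 1 / 2)]

lemma int_bound (κ c : ℝ) (p q : ℝ) :
    ∫ s in p..q, (-(κ * cos s) + c * cos s ^ 2) =
      -(κ * (sin q - sin p)) + c * ((q - p) / 2 + (cos q * sin q - cos p * sin p) / 2) := by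
  rw [intervalIntegral.integral_add (by apply Continuous.intervalIntegrable; fun_prop)
    (by apply Continuous.intervalIntegrable; fun_prop), intervalIntegral.integral_neg,
    intervalIntegral.integral_const_mul, intervalIntegral.integral_const_mul, integral_cos,
    integral_cos_sq]
  ring

lemma cs_bound (s : ℝ) : |cos s * sin s| ≤ 1 / 2 := by
  rw [abs_le]
  have h := cos_sq_add_sin_sq s
  constructor <;> nlinarith [sq_nonneg (cos s + sin s), sq_nonneg (cos s - sin s)]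

theorem main (M : ℝ) (hM : 0 < M) (t₀ : ℝ) : ∃ a h : ℝ → ℝ, IsAdmissible t₀ a h ∧
    0 < liminf (fun t => ∫ s in h t..t, a s) atTop ∧
    limsup (fun t => ∫ s in h t..t, a s) atTop < M ∧
    ∃ x : ℝ → ℝ, IsInitial t₀ x ∧ IsSolution t₀ a h x x ∧ ∀ t, 1 / 2 ≤ x t := by
  obtain ⟨κ, h0, h1, h2⟩ : ∃ κ : ℝ, 0 < κ ∧ κ ≤ 1 / 2 ∧ 13 * κ < M :=
    ⟨min (1 / 2) (M / 26), by positivity, min_le_left _ _, by
      have := min_le_right (1 / 2 : ℝ) (M / 26); linarith⟩
  set j : ℕ := ⌈(6 / κ + 2 + π / 2) / (2 * π)⌉₊ with hj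
  have hπ : 0 < π := pi_pos
  have hπ3 : π < 3.15 := pi_lt_d2
  have hj1 : 6 / κ + 2 + π / 2 ≤ 2 * π * j := by
    have := Nat.le_ceil ((6 / κ + 2 + π / 2) / (2 * π))
    rw [div_le_iff₀ (by positivity)] at this
    linarith
  have hj2 : 2 * π * j < 6 / κ + 2 + π / 2 + 2 * π := by
    have := Nat.ceil_lt_add_one (a := (6 / κ + 2 + π / 2) / (2 * π)) (by positivity)
    rw [← hj] at this
    have h3 : (j - 1 : ℝ) < (6 / κ + 2 + π / 2) / (2 * π) := by linarith
    rw [lt_div_iff₀ (by positivity)] at h3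
    linarith
  set τ : ℝ := 2 * π * j - π / 2 with hτ
  have hτ1 : 6 / κ + 2 ≤ τ := by linarith
  have hτ2 : τ ≤ 6 / κ + 9 := by linarith
  have hκτ1 : 6 * κ + 2 * κ ^ 2 ≤ κ ^ 2 * τ := by
    have : κ ^ 2 * (6 / κ + 2) = 6 * κ + 2 * κ ^ 2 := by field_simp
    rw [← this]; exact mul_le_mul_of_nonneg_left hτ1 (by positivity)
  have hκτ2 : κ ^ 2 * τ ≤ 6 * κ + 9 * κ ^ 2 := by
    have : κ ^ 2 * (6 / κ + 9) = 6 * κ + 9 * κ ^ 2 := by field_simp
    rw [← this]; exact mul_le_mul_of_nonneg_left hτ2 (by positivity)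
  have hτ0 : 0 < τ := by
    have : 0 < 6 / κ := by positivity
    linarith
  have hcont := co_cont κ h0 h1
  have hlow : ∀ t, κ ^ 2 / 3 ≤ ∫ s in (t - τ)..t, co κ s := by
    intro t
    have e1 : ∫ s in (t - τ)..t, (-(κ * cos s) + 2 / 3 * κ ^ 2 * cos s ^ 2) ≤
        ∫ s in (t - τ)..t, co κ s :=
      intervalIntegral.integral_mono_on (by linarith)
        (by apply Continuous.intervalIntegrable; fun_prop) (hcont.intervalIntegrable _ _)
        fun s _ => co_lower κ h0 h1 s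
    rw [int_bound] at e1
    have b1 := abs_le.1 (cs_bound t)
    have b2 := abs_le.1 (cs_bound (t - τ))
    have b3 := sin_le_one t
    have b4 := neg_one_le_sin (t - τ)
    have b5 : κ * (sin t - sin (t - τ)) ≤ 2 * κ := by nlinarith
    have b6 : 2 / 3 * κ ^ 2 * ((t - (t - τ)) / 2 - 1 / 2) ≤ 2 / 3 * κ ^ 2 *
        ((t - (t - τ)) / 2 + (cos t * sin t - cos (t - τ) * sin (t - τ)) / 2) :=
      mul_le_mul_of_nonneg_left (by linarith) (by positivity)
    nlinarith
  have hupp : ∀ t, ∫ s in (t - τ)..t, co κ s ≤ 13 * κ := by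
    intro t
    have e1 : ∫ s in (t - τ)..t, co κ s ≤
        ∫ s in (t - τ)..t, (-(κ * cos s) + 2 * κ ^ 2 * cos s ^ 2) :=
      intervalIntegral.integral_mono_on (by linarith) (hcont.intervalIntegrable _ _)
        (by apply Continuous.intervalIntegrable; fun_prop)
        fun s _ => co_upper κ h0 h1 s
    rw [int_bound] at e1
    have b1 := abs_le.1 (cs_bound t)
    have b2 := abs_le.1 (cs_bound (t - τ))
    have b3 := neg_one_le_sin t
    have b4 := sin_le_one (t - τ)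
    have b5 : -(κ * (sin t - sin (t - τ))) ≤ 2 * κ := by nlinarith
    have b6 : 2 * κ ^ 2 *
        ((t - (t - τ)) / 2 + (cos t * sin t - cos (t - τ) * sin (t - τ)) / 2) ≤
        2 * κ ^ 2 * ((t - (t - τ)) / 2 + 1 / 2) :=
      mul_le_mul_of_nonneg_left (by linarith) (by positivity)
    nlinarith
  refine ⟨co κ, fun t => t - τ, ⟨hcont.continuousOn, by fun_prop, fun t _ => by linarith,
    tendsto_atTop_add_const_right _ _ tendsto_id, ⟨1, fun t _ => ?_⟩, ⟨τ, fun t _ => by linarith⟩⟩,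
    ?_, ?_, fun t => 1 + κ * sin t, ⟨by fun_prop, 2, fun t _ => ?_⟩, ⟨fun t _ => rfl, fun t _ => ?_⟩,
    fun t => ?_⟩
  · obtain ⟨d1, d2⟩ := den_bounds κ h0 h1 t
    unfold co
    rw [abs_div, abs_neg, abs_of_pos (by linarith : 0 < 1 + κ * cos t), div_le_one (by linarith),
      abs_le]
    constructor <;> linarith
  · have : κ ^ 2 / 3 ≤ liminf (fun t => ∫ s in (t - τ)..t, co κ s) atTop := by
      have hb : IsBoundedUnder (· ≤ ·) atTop (fun t => ∫ s in (t - τ)..t, co κ s) :=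
        ⟨13 * κ, Filter.eventually_map.2 (Eventually.of_forall hupp)⟩
      exact le_liminf_of_le hb.isCoboundedUnder_ge (Eventually.of_forall hlow)
    have : 0 < κ ^ 2 / 3 := by positivity
    simp only
    linarith
  · have : limsup (fun t => ∫ s in (t - τ)..t, co κ s) atTop ≤ 13 * κ := by
      have hb : IsBoundedUnder (· ≥ ·) atTop (fun t => ∫ s in (t - τ)..t, co κ s) :=
        ⟨κ ^ 2 / 3, Filter.eventually_map.2 (Eventually.of_forall hlow)⟩
      exact limsup_le_of_le hb.isCoboundedUnder_le (Eventually.of_forall hupp)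
    simp only
    linarith
  · have := neg_one_le_sin t
    have := sin_le_one t
    rw [abs_le]
    constructor <;> nlinarith
  · have hs : sin (t - τ) = cos t := by
      rw [hτ, show t - (2 * π * j - π / 2) = (t + π / 2) - j * (2 * π) by ring,
        sin_sub_nat_mul_two_pi, sin_add_pi_div_two]
    have hd := (den_bounds κ h0 h1 t).1
    have hx : HasDerivAt (fun t => 1 + κ * sin t) (κ * cos t) t :=
      ((hasDerivAt_sin t).const_mul κ).const_add 1
    have e : -(co κ t * (1 + κ * sin (t - τ))) = κ * cos t := by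
      rw [hs]; unfold co; field_simp
    simp only
    rw [e]
    exact hx.hasDerivWithinAt
  · have := neg_one_le_sin t
    nlinarith

/-- There is no constant `M > 0` such that, for all admissible pairs `(a, h)`, the condition
`0 < liminf ∫_{h(t)}^t a ≤ limsup ∫_{h(t)}^t a < M` implies asymptotic stability; moreover this fails on
every half-line `[t₀, ∞)`. -/
theorem result : ∀ t₀ : ℝ, ¬ ∃ M : ℝ, 0 < M ∧ ∀ a h : ℝ → ℝ, IsAdmissible t₀ a h →
    0 < liminf (fun t => ∫ s in h t..t, a s) atTop →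
    limsup (fun t => ∫ s in h t..t, a s) atTop < M → IsAS t₀ a h := by
  rintro t₀ ⟨M, hM, H⟩
  obtain ⟨a, h, had, h1, h2, x, hx1, hx2, hx3⟩ := main M hM t₀
  have := (H a h had h1 h2).2 x x hx1 hx2
  have := ge_of_tendsto' this hx3
  norm_num at this

end Pool.Agent.Results.MP_5ce401_an.NoConstant
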